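import Pool.Agent.Lib.MP_ac7d6b_co.Main

set_option autoImplicit false

namespace Pool.Agent.Results.MP_ac7d6b_co.QuadraticBound

/-- The regularity radius of Delone sets in dimension `d` is at most `(9 d ^ 2 + 8 d + 7) R`,
whatever the packing radius. -/
theorem result :
    ∀ d : ℕ, 1 ≤ d → ∀ R : ℝ, 0 < R → ∀ ρ : ℝ,
      (9 * (d : ℝ) ^ 2 + 8 * (d : ℝ) + 7) * R ≤ ρ →
      ∀ X : Set (EuclideanSpace ℝ (Fin d)),
        (∃ r : ℝ, 0 < r ∧ ∀ x ∈ X, ∀ y ∈ X, x ≠ y → r ≤ dist x y) →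
        (∀ p : EuclideanSpace ℝ (Fin d), ∃ x ∈ X, dist p x ≤ R) →
        (∀ x ∈ X, ∀ y ∈ X, ∃ g : EuclideanSpace ℝ (Fin d) ≃ᵢ EuclideanSpace ℝ (Fin d),
            g x = y ∧ g '' (X ∩ Metric.closedBall x ρ) = X ∩ Metric.closedBall y ρ) →
        ∀ x ∈ X, ∀ y ∈ X, ∃ g : EuclideanSpace ℝ (Fin d) ≃ᵢ EuclideanSpace ℝ (Fin d),
            g x = y ∧ g '' X = X := by
  intro d hd R hR ρ hρ X hsep hcov hiso x hx y hy
  obtain ⟨r, hr0, hr⟩ := hsep
  have hdim : Module.finrank ℝ (EuclideanSpace ℝ (Fin d)) = d := by simp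
  obtain ⟨f, hf1, hf2⟩ := Pool.Agent.Lib.MP_ac7d6b_co.regular (X := X) (ρ := ρ) hr0 hR
    (fun a ha b hb hab => by rw [← dist_eq_norm]; exact hr a ha b hb hab)
    (fun p => by
      obtain ⟨a, ha, hpa⟩ := hcov p
      exact ⟨a, ha, by rw [← dist_eq_norm]; exact hpa⟩)
    (by rw [hdim]; omega)
    (by rw [hdim]; exact hρ)
    (fun a ha b hb => by
      obtain ⟨g, hg1, hg2⟩ := hiso a ha b hb
      refine ⟨g.toRealAffineIsometryEquiv, hg1, fun p hp hpa => ?_, fun p hp hpa => ?_⟩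
      · have : g p ∈ X ∩ Metric.closedBall b ρ := by
          rw [← hg2]
          exact ⟨p, ⟨hp, by rw [Metric.mem_closedBall, dist_eq_norm]; exact hpa⟩, rfl⟩
        exact this.1
      · have hpb : p ∈ X ∩ Metric.closedBall b ρ :=
          ⟨hp, by rw [Metric.mem_closedBall, dist_eq_norm, ← hg1]; exact hpa⟩
        rw [← hg2] at hpb
        obtain ⟨q, hq, rfl⟩ := hpb
        have : g.toRealAffineIsometryEquiv⁻¹ (g q) = q :=
          Pool.Agent.Lib.MP_ac7d6b_co.inv_app g.toRealAffineIsometryEquiv q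
        rw [this]
        exact hq.1)
    hx hy
  exact ⟨f.toIsometryEquiv, hf1, hf2⟩

end Pool.Agent.Results.MP_ac7d6b_co.QuadraticBound
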